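import Pool.Agent.W174.UN.Der1

set_option autoImplicit false
open MeasureTheory Set Filter Topology

namespace Pool.Agent.W174.UN

open Pool.Agent.W648.UN

theorem sq_slit {z : ℂ} (hz : 0 < z.re) : z ^ 2 ∈ Complex.slitPlane := by
  rw [Complex.mem_slitPlane_iff]
  by_cases h : z.im = 0
  · left
    rw [sq, Complex.mul_re, h]
    nlinarith
  · right
    rw [sq, Complex.mul_im]
    intro h2
    have h3 : z.re * z.im = 0 := by linarith
    rcases mul_eq_zero.1 h3 with h4 | h4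
    · linarith
    · exact h h4

/-- derivative of `∫_x^1 f` -/
theorem hasDeriv_left {f : ℝ → ℂ} (hi : IntervalIntegrable f volume 0 1)
    (hc : ContinuousOn f (Ioo (0:ℝ) 1)) {x : ℝ} (hx : x ∈ Ioo (0:ℝ) 1) :
    HasDerivAt (fun u => ∫ s in u..1, f s) (-f x) x := by
  apply intervalIntegral.integral_hasDerivAt_left
  · exact hi.mono_set (by
      rw [uIcc_of_le hx.2.le, uIcc_of_le zero_le_one]
      exact Icc_subset_Icc_left hx.1.le)
  · exact hc.stronglyMeasurableAtFilter isOpen_Ioo x hx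
  · exact hc.continuousAt (isOpen_Ioo.mem_nhds hx)

theorem cont_left {f : ℝ → ℂ} (hi : IntervalIntegrable f volume 0 1) :
    ContinuousOn (fun u => ∫ s in u..1, f s) (Icc (0:ℝ) 1) := by
  have h := intervalIntegral.continuousOn_primitive_interval_left (a := 0) (b := 1) (f := f)
    (μ := volume) ((intervalIntegrable_iff' ).1 hi)
  rwa [uIcc_of_le zero_le_one] at h

theorem ident {H P E : ℝ → ℂ} {b c M : ℝ} (hNB : NB H (1/20)) (hc : 0 < c) (hb : 0 < b)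
    (cH : ContinuousOn H (Ioo (0:ℝ) 1))
    (h1 : Dat H P b c M) (cE : ContinuousOn E (Ico (0:ℝ) 1))
    (bE : ∀ x ∈ Ico (0:ℝ) 1, ‖E x‖ ≤ 5 / 4)
    (eE : ∀ x ∈ Ico (0:ℝ) 1, E x = 1 + ∫ s in x..1, H s * (E s / P s)) :
    ∫ x in (0:ℝ)..1, (x:ℂ) * (E x / P x ^ 3) = ((1 / Real.sqrt b : ℝ) : ℂ) - E 0 / P 0 := by
  have h0 : (0:ℝ) ∈ Ico (0:ℝ) 1 := ⟨le_rfl, one_pos⟩
  have hre : ∀ x ∈ Ico (0:ℝ) 1, 0 < (P x).re := fun x hx => hc.trans_le (h1.lP x hx)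
  have hPn : ∀ x ∈ Ico (0:ℝ) 1, c ≤ ‖P x‖ := fun x hx =>
    (h1.lP x hx).trans (Complex.re_le_norm _)
  have hneP : ∀ x ∈ Ico (0:ℝ) 1, P x ≠ 0 := by
    intro x hx h0
    have := hPn x hx
    rw [h0, norm_zero] at this
    linarith
  have cEP : ContinuousOn (fun s => E s / P s) (Ico (0:ℝ) 1) := cE.div h1.cP hneP
  have bEP : ∀ x ∈ Ico (0:ℝ) 1, ‖E x / P x‖ ≤ 5 / 4 / c := by
    intro x hx
    rw [norm_div]
    exact div_le_div₀ (by norm_num) (bE x hx) hc (hPn x hx)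
  have iJ := ii_HG hNB h1.cP h1.uP h0
  have iK := ii_HG hNB cEP bEP h0
  have hIoo : Ioo (0:ℝ) 1 ⊆ Ico (0:ℝ) 1 := Ioo_subset_Ico_self
  have cJ : ContinuousOn (fun s => H s * P s) (Ioo (0:ℝ) 1) := cH.mul (h1.cP.mono hIoo)
  have cK : ContinuousOn (fun s => H s * (E s / P s)) (Ioo (0:ℝ) 1) := cH.mul (cEP.mono hIoo)
  obtain ⟨J, hJ⟩ : ∃ J : ℝ → ℂ, ∀ x, J x = ∫ s in x..1, H s * P s := ⟨_, fun _ => rfl⟩
  obtain ⟨K, hK⟩ : ∃ K : ℝ → ℂ, ∀ x, K x = ∫ s in x..1, H s * (E s / P s) := ⟨_, fun _ => rfl⟩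
  have eJ : J = fun x => ∫ s in x..1, H s * P s := funext hJ
  have eK : K = fun x => ∫ s in x..1, H s * (E s / P s) := funext hK
  have contJ : ContinuousOn J (Icc (0:ℝ) 1) := by rw [eJ]; exact cont_left iJ
  have contK : ContinuousOn K (Icc (0:ℝ) 1) := by rw [eK]; exact cont_left iK
  have dJ : ∀ x ∈ Ioo (0:ℝ) 1, HasDerivAt J (-(H x * P x)) x := by
    intro x hx; rw [eJ]; exact hasDeriv_left iJ cJ hx
  have dK : ∀ x ∈ Ioo (0:ℝ) 1, HasDerivAt K (-(H x * (E x / P x))) x := by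
    intro x hx; rw [eK]; exact hasDeriv_left iK cK hx
  have hJ1 : J 1 = 0 := by rw [hJ, intervalIntegral.integral_same]
  have hK1 : K 1 = 0 := by rw [hK, intervalIntegral.integral_same]
  obtain ⟨R, hR⟩ : ∃ R : ℝ → ℂ, ∀ x, R x = 1 - (x:ℂ) ^ 2 + b + 2 * J x := ⟨_, fun _ => rfl⟩
  have eR : R = fun x : ℝ => 1 - (x:ℂ) ^ 2 + b + 2 * J x := funext hR
  have hRP : ∀ x ∈ Ico (0:ℝ) 1, R x = P x ^ 2 := by
    intro x hx
    rw [hR, h1.eP x hx, hJ]
  have hR1 : R 1 = b := by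
    rw [hR, hJ1]; push_cast; ring
  have contR : ContinuousOn R (Icc (0:ℝ) 1) := by
    rw [eR]
    exact (((continuousOn_const.sub (by fun_prop)).add continuousOn_const).add
      (continuousOn_const.mul contJ))
  have dR : ∀ x ∈ Ioo (0:ℝ) 1, HasDerivAt R (-2 * (x:ℂ) - 2 * (H x * P x)) x := by
    intro x hx
    rw [eR]
    have e1 : HasDerivAt (fun x : ℝ => (x:ℂ)) 1 x := Complex.ofRealCLM.hasDerivAt
    have e2 := (((e1.pow 2).const_sub 1).add_const (b:ℂ)).add ((dJ x hx).const_mul 2)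
    refine e2.congr_deriv ?_
    push_cast
    ring
  have slitR : ∀ x ∈ Icc (0:ℝ) 1, R x ∈ Complex.slitPlane := by
    intro x hx
    rcases lt_or_eq_of_le hx.2 with h | h
    · rw [hRP x ⟨hx.1, h⟩]
      exact sq_slit (hre x ⟨hx.1, h⟩)
    · rw [h, hR1]
      exact Complex.ofReal_mem_slitPlane.2 hb
  obtain ⟨Q, hQ⟩ : ∃ Q : ℝ → ℂ, ∀ x, Q x = R x ^ ((2:ℂ)⁻¹) := ⟨_, fun _ => rfl⟩
  have eQ : Q = fun x => R x ^ ((2:ℂ)⁻¹) := funext hQ
  have hQP : ∀ x ∈ Ico (0:ℝ) 1, Q x = P x := by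
    intro x hx
    rw [hQ, hRP x hx, Complex.sq_cpow_two_inv (hre x hx)]
  have hQ1 : Q 1 = ((Real.sqrt b : ℝ) : ℂ) := by
    rw [hQ, hR1, Real.sqrt_eq_rpow, Complex.ofReal_cpow hb.le]
    congr 1
    push_cast
    norm_num
  have contQ : ContinuousOn Q (Icc (0:ℝ) 1) := by
    rw [eQ]
    intro x hx
    have h2 : ContinuousAt (fun z : ℂ => z ^ ((2:ℂ)⁻¹)) (R x) :=
      continuousAt_cpow_const (slitR x hx)
    exact h2.comp_continuousWithinAt (contR x hx)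
  have hsb : Real.sqrt b ≠ 0 := (Real.sqrt_pos.2 hb).ne'
  have hQne : ∀ x ∈ Icc (0:ℝ) 1, Q x ≠ 0 := by
    intro x hx
    rcases lt_or_eq_of_le hx.2 with h | h
    · rw [hQP x ⟨hx.1, h⟩]
      exact hneP x ⟨hx.1, h⟩
    · rw [h, hQ1]
      exact_mod_cast hsb
  have dQ : ∀ x ∈ Ioo (0:ℝ) 1, HasDerivAt Q ((-(x:ℂ) - H x * P x) / P x) x := by
    intro x hx
    have hx' := hIoo hx
    have hx'' := Ioo_subset_Icc_self hx
    have g1 : HasDerivAt (fun z : ℂ => z ^ ((2:ℂ)⁻¹))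
        ((2:ℂ)⁻¹ * R x ^ ((2:ℂ)⁻¹ - 1) * 1) (R x) :=
      (hasDerivAt_id (R x)).cpow_const (slitR x hx'')
    have g2 := HasDerivAt.scomp x g1 (dR x hx)
    rw [eQ]
    refine g2.congr_deriv ?_
    have hRne : R x ≠ 0 := Complex.slitPlane_ne_zero (slitR x hx'')
    have g3 : R x ^ ((2:ℂ)⁻¹ - 1) = P x / R x := by
      rw [Complex.cpow_sub _ _ hRne, Complex.cpow_one, ← hQ, hQP x hx']
    rw [g3, hRP x hx', smul_eq_mul]
    have := hneP x hx'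
    field_simp
  -- the primitive
  have contG : ContinuousOn (fun x => (1 + K x) / Q x) (Icc (0:ℝ) 1) :=
    (continuousOn_const.add contK).div contQ hQne
  have hEK : ∀ x ∈ Ico (0:ℝ) 1, 1 + K x = E x := by
    intro x hx
    rw [eE x hx, hK]
  have dG : ∀ x ∈ Ioo (0:ℝ) 1, HasDerivAt (fun x => (1 + K x) / Q x)
      ((x:ℂ) * (E x / P x ^ 3)) x := by
    intro x hx
    have hx' := hIoo hx
    have hx'' := Ioo_subset_Icc_self hx
    have g := ((dK x hx).const_add 1).div (dQ x hx) (hQne x hx'')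
    refine g.congr_deriv ?_
    rw [hEK x hx', hQP x hx']
    have := hneP x hx'
    field_simp
    ring
  have i3 : IntervalIntegrable (fun x : ℝ => (x:ℂ) * (E x / P x ^ 3)) volume 0 1 := by
    refine ii_bdd (ContinuousOn.mul (by fun_prop) (cE.div (h1.cP.pow 3)
      fun x hx => pow_ne_zero 3 (hneP x hx))) (B := 1 * (5 / 4 / c ^ 3)) ?_ h0
    intro x hx
    change ‖(x:ℂ) * (E x / P x ^ 3)‖ ≤ 1 * (5 / 4 / c ^ 3)
    rw [norm_mul, norm_div, norm_pow, Complex.norm_real, Real.norm_eq_abs, abs_of_nonneg hx.1]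
    apply mul_le_mul hx.2.le _ (by positivity) zero_le_one
    exact div_le_div₀ (by norm_num) (bE x hx) (by positivity)
      (pow_le_pow_left₀ hc.le (hPn x hx) 3)
  have hF := intervalIntegral.integral_eq_sub_of_hasDerivAt_of_le zero_le_one contG dG i3
  rw [hF, hEK 0 h0, hQP 0 h0, hK1, hQ1]
  push_cast
  ring

/-- the data of a solution -/
theorem dat_of_sol (hD : S_D) {H p q E : ℝ → ℂ} {b c M : ℝ} (hb : 0 < b)
    (hS : Sol H (b:ℂ) p q E) (hc : c ≤ 3/4 * Real.sqrt b) (hM : 5/4 * Real.sqrt (1 + b) ≤ M) :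
    Dat H (fun x => D b x * p x) b c M := by
  obtain ⟨hD1, -, -, -, hD5⟩ := hD
  have hOm : (b:ℂ) ∈ Om := by
    change |((b:ℂ)).im| ≤ ((b:ℂ)).re
    simp [hb.le]
  have hIco : ∀ x ∈ Ico (0:ℝ) 1, x ∈ Icc (0:ℝ) 1 := fun x hx => ⟨hx.1, hx.2.le⟩
  have hDv : ∀ x ∈ Ico (0:ℝ) 1, D b x = ((Real.sqrt (1 - x ^ 2 + b) : ℝ) : ℂ) := fun x hx =>
    hD5 b hb.le x (hIco x hx)
  have hp : ∀ x ∈ Ico (0:ℝ) 1, 3/4 ≤ (p x).re := by
    intro x hx
    have h1 := (Complex.abs_re_le_norm (p x - 1)).trans (hS.bp x hx)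
    rw [Complex.sub_re, Complex.one_re, abs_le] at h1
    linarith [h1.1]
  have hpn : ∀ x ∈ Ico (0:ℝ) 1, ‖p x‖ ≤ 5/4 := by
    intro x hx
    have h1 := norm_le_insert' (p x) 1
    rw [norm_one] at h1
    linarith [hS.bp x hx]
  have hre : ∀ x ∈ Ico (0:ℝ) 1, (D b x * p x).re = Real.sqrt (1 - x ^ 2 + b) * (p x).re := by
    intro x hx
    rw [hDv x hx, Complex.re_ofReal_mul]
  refine ⟨?_, ?_, ?_, ?_, ?_⟩
  · refine ContinuousOn.mul ?_ hS.cp
    refine ContinuousOn.congr (f := fun x : ℝ => ((Real.sqrt (1 - x ^ 2 + b) : ℝ) : ℂ)) ?_ hDv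
    exact (by fun_prop : Continuous (fun x : ℝ => ((Real.sqrt (1 - x ^ 2 + b) : ℝ) : ℂ))).continuousOn
  · intro x hx
    rw [norm_mul, hDv x hx, Complex.norm_real, Real.norm_eq_abs,
      abs_of_nonneg (Real.sqrt_nonneg _)]
    have h1 : Real.sqrt (1 - x ^ 2 + b) ≤ Real.sqrt (1 + b) :=
      Real.sqrt_le_sqrt (by nlinarith [hx.1])
    calc Real.sqrt (1 - x ^ 2 + b) * ‖p x‖ ≤ Real.sqrt (1 + b) * (5/4) :=
          mul_le_mul h1 (hpn x hx) (norm_nonneg _) (Real.sqrt_nonneg _)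
      _ ≤ M := by linarith
  · intro x hx
    rw [hre x hx]
    have h1 : Real.sqrt b ≤ Real.sqrt (1 - x ^ 2 + b) :=
      Real.sqrt_le_sqrt (by nlinarith [hx.1, hx.2])
    calc c ≤ Real.sqrt b * (3/4) := by linarith
      _ ≤ _ := mul_le_mul h1 (hp x hx) (by norm_num) (Real.sqrt_nonneg _)
  · intro x hx
    rw [hre x hx]
    have h1 : Real.sqrt (1 - x) ≤ Real.sqrt (1 - x ^ 2 + b) :=
      Real.sqrt_le_sqrt (by nlinarith [hx.1, hx.2])
    calc 3/4 * Real.sqrt (1 - x) = Real.sqrt (1 - x) * (3/4) := by ring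
      _ ≤ _ := mul_le_mul h1 (hp x hx) (by norm_num) (Real.sqrt_nonneg _)
  · intro x hx
    obtain ⟨n1, n2, -⟩ := hD1 b hOm x hx
    have e1 := hS.ep x hx
    have e2 : ∫ s in x..1, H s * (D b s * p s) = ∫ s in x..1, D b s • (H s * p s) := by
      apply ii_congr hx
      intro s _
      rw [smul_eq_mul]; ring
    rw [mul_pow, e1, e2, smul_eq_mul, ← n2]
    field_simp

theorem der_th (hD : S_D) (hE : S_EX) (hUps : S_UPS) : S_DER := by
  intro H cH _ hNB b hb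
  have hOm : ∀ b : ℝ, 0 < b → (b:ℂ) ∈ Om := by
    intro b hb
    change |((b:ℂ)).im| ≤ ((b:ℂ)).re
    simp [hb.le]
  have h0 : (0:ℝ) ∈ Ico (0:ℝ) 1 := ⟨le_rfl, one_pos⟩
  obtain ⟨p, q, E, hS⟩ := hE ℂ H b hNB (hOm b hb)
  obtain ⟨c, hc⟩ : ∃ c : ℝ, c = 3/4 * Real.sqrt (b/2) := ⟨_, rfl⟩
  obtain ⟨M, hM⟩ : ∃ M : ℝ, M = 5/4 * Real.sqrt (1 + 2 * b) := ⟨_, rfl⟩
  have hc0 : 0 < c := by rw [hc]; positivity
  have hdat : ∀ b' : ℝ, b / 2 ≤ b' → b' ≤ 2 * b → ∀ p' q' E' : ℝ → ℂ, Sol H (b':ℂ) p' q' E' →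
      Dat H (fun x => D b' x * p' x) b' c M := by
    intro b' h1 h2 p' q' E' hS'
    apply dat_of_sol hD (by linarith) hS'
    · rw [hc]
      exact mul_le_mul_of_nonneg_left (Real.sqrt_le_sqrt h1) (by norm_num)
    · rw [hM]
      exact mul_le_mul_of_nonneg_left (Real.sqrt_le_sqrt (by linarith)) (by norm_num)
  have hdb := hdat b (by linarith) (by linarith) p q E hS
  obtain ⟨P, hP⟩ : ∃ P : ℝ → ℂ, P = fun x => D b x * p x := ⟨_, rfl⟩
  rw [← hP] at hdb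
  have hPx : ∀ x, P x = D b x * p x := fun x => by rw [hP]
  have bE : ∀ x ∈ Ico (0:ℝ) 1, ‖E x‖ ≤ 5 / 4 := by
    intro x hx
    have h1 := norm_le_insert' (E x) 1
    rw [norm_one] at h1
    linarith [hS.bE x hx]
  have hq : ∀ p' q' E' : ℝ → ℂ, ∀ b' : ℝ, Sol H (b':ℂ) p' q' E' → ∀ x ∈ Ico (0:ℝ) 1,
      q' x = (p' x)⁻¹ := by
    intro p' q' E' b' hS' x hx
    exact eq_inv_of_mul_eq_one_right (hS'.pq x hx)
  have eE : ∀ x ∈ Ico (0:ℝ) 1, E x = 1 + ∫ s in x..1, H s * (E s / P s) := by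
    intro x hx
    rw [hS.eE x hx]
    congr 1
    apply ii_congr hx
    intro s hs
    have hs' : s ∈ Ico (0:ℝ) 1 := ⟨hx.1.trans hs.1.le, hs.2⟩
    rw [hq p q E b hS s hs', hPx, smul_eq_mul, div_eq_mul_inv, mul_inv]
    ring
  have hTau : ∀ b' : ℝ, 0 < b' → ∀ p' q' E' : ℝ → ℂ, Sol H (b':ℂ) p' q' E' →
      Tau H (b':ℂ) = ∫ x in (0:ℝ)..1, (D b' x * p' x)⁻¹ := by
    intro b' hb' p' q' E' hS'
    rw [(hUps ℂ H b' p' q' E' hNB (hOm b' hb') hS').2]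
    unfold tauOf
    apply ii_congr h0
    intro s hs
    rw [hq p' q' E' b' hS' s (Ioo_subset_Ico_self hs), smul_eq_mul, mul_inv]
  -- the value of the derivative
  have hneP : ∀ x ∈ Ico (0:ℝ) 1, P x ≠ 0 := by
    intro x hx h0
    have := hdb.lP x hx
    rw [h0, Complex.zero_re] at this
    linarith
  have hid := ident hNB hc0 hb cH hdb hS.cE bE eE
  have i3 : IntervalIntegrable (fun x => E x / P x ^ 3) volume 0 1 := by
    refine ii_bdd (hS.cE.div (hdb.cP.pow 3) fun x hx => pow_ne_zero 3 (hneP x hx))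
      (B := 5 / 4 / c ^ 3) ?_ h0
    intro x hx
    change ‖E x / P x ^ 3‖ ≤ 5 / 4 / c ^ 3
    rw [norm_div, norm_pow]
    exact div_le_div₀ (by norm_num) (bE x hx) (by positivity)
      (pow_le_pow_left₀ hc0.le ((hdb.lP x hx).trans (Complex.re_le_norm _)) 3)
  have i4 : IntervalIntegrable (fun x : ℝ => (x:ℂ) * (E x / P x ^ 3)) volume 0 1 := by
    refine ii_bdd (ContinuousOn.mul (by fun_prop) (hS.cE.div (hdb.cP.pow 3)
      fun x hx => pow_ne_zero 3 (hneP x hx))) (B := 1 * (5 / 4 / c ^ 3)) ?_ h0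
    intro x hx
    change ‖(x:ℂ) * (E x / P x ^ 3)‖ ≤ 1 * (5 / 4 / c ^ 3)
    rw [norm_mul, norm_div, norm_pow, Complex.norm_real, Real.norm_eq_abs, abs_of_nonneg hx.1]
    apply mul_le_mul hx.2.le _ (by positivity) zero_le_one
    exact div_le_div₀ (by norm_num) (bE x hx) (by positivity)
      (pow_le_pow_left₀ hc0.le ((hdb.lP x hx).trans (Complex.re_le_norm _)) 3)
  have hU : Ups H (b:ℂ) = E 0 / P 0 - ∫ x in (0:ℝ)..1, (1 - (x:ℂ)) * (E x / P x ^ 3) := by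
    rw [(hUps ℂ H b p q E hNB (hOm b hb) hS).1]
    unfold upsOf
    congr 1
    · rw [hq p q E b hS 0 h0, hPx, smul_eq_mul, div_eq_mul_inv, mul_inv]
      ring
    · apply ii_congr h0
      intro s hs
      rw [hq p q E b hS s (Ioo_subset_Ico_self hs), hPx, smul_eq_mul, mul_pow, div_eq_mul_inv,
        mul_inv, inv_pow, inv_pow]
      ring
  have hU2 : ∫ x in (0:ℝ)..1, (1 - (x:ℂ)) * (E x / P x ^ 3) =
      (∫ x in (0:ℝ)..1, E x / P x ^ 3) - ∫ x in (0:ℝ)..1, (x:ℂ) * (E x / P x ^ 3) := by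
    rw [← intervalIntegral.integral_sub i3 i4]
    congr 1
    funext x
    ring
  have hval : (1 / 2) * Ups H (b : ℂ) - ((1 / (2 * Real.sqrt b) : ℝ) : ℂ) =
      -(1/2) * ∫ x in (0:ℝ)..1, E x / P x ^ 3 := by
    rw [hU, hU2, hid]
    have hsb : ((Real.sqrt b : ℝ) : ℂ) ≠ 0 := by
      exact_mod_cast (Real.sqrt_pos.2 hb).ne'
    push_cast
    field_simp
    ring
  rw [hval, hasDerivAt_iff_isLittleO]
  have hO : (fun b' : ℝ => Tau H (b' : ℂ) - Tau H (b : ℂ) -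
      (b' - b) • (-(1/2) * ∫ x in (0:ℝ)..1, E x / P x ^ 3)) =O[𝓝 b]
      fun b' => ‖b' - b‖ ^ 2 := by
    apply Asymptotics.IsBigO.of_bound ((1/2 + 6 * M) / c ^ 6)
    have hev : ∀ᶠ b' in 𝓝 b, b' ∈ Ioo (b/2) (2 * b) :=
      Ioo_mem_nhds (by linarith) (by linarith)
    filter_upwards [hev] with b' hb'
    have hb'0 : 0 < b' := by linarith [hb'.1]
    obtain ⟨p', q', E', hS'⟩ := hE ℂ H b' hNB (hOm b' hb'0)
    have hdb' := hdat b' hb'.1.le hb'.2.le p' q' E' hS'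
    have hT := step_T hNB hc0 hdb hdb' hS.cE bE eE
    have e1 : (b' - b) • (-(1/2) * ∫ x in (0:ℝ)..1, E x / P x ^ 3) =
        ((b' - b : ℝ) : ℂ) * (-(1/2) * ∫ x in (0:ℝ)..1, E x / P x ^ 3) :=
      Complex.real_smul
    rw [hTau b' hb'0 p' q' E' hS', hTau b hb p q E hS, e1]
    rw [Real.norm_eq_abs, Real.norm_eq_abs, abs_pow, abs_abs]
    simp only [← hPx]
    exact hT
  exact hO.trans_isLittleO (Asymptotics.isLittleO_pow_sub_sub b (by norm_num))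

end Pool.Agent.W174.UN
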