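import Pool.Agent.W648.UN.Stm

set_option autoImplicit false
open MeasureTheory Set Filter Topology

namespace Pool.Agent.W174.UN

open Pool.Agent.W648.UN

theorem sup_lemma {W : ℝ → ℂ} {a θ B : ℝ} (hθ : θ < 1)
    (hB : ∀ x ∈ Ico (0:ℝ) 1, ‖W x‖ ≤ B)
    (h : ∀ S : ℝ, (∀ x ∈ Ico (0:ℝ) 1, ‖W x‖ ≤ S) → ∀ x ∈ Ico (0:ℝ) 1, ‖W x‖ ≤ a + θ * S) :
    ∀ x ∈ Ico (0:ℝ) 1, ‖W x‖ ≤ a / (1 - θ) := by
  have hbdd : BddAbove ((fun x => ‖W x‖) '' Ico (0:ℝ) 1) := by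
    refine ⟨B, ?_⟩
    rintro y ⟨x, hx, rfl⟩
    exact hB x hx
  have hne : ((fun x => ‖W x‖) '' Ico (0:ℝ) 1).Nonempty := ⟨_, 0, ⟨le_rfl, one_pos⟩, rfl⟩
  set S := sSup ((fun x => ‖W x‖) '' Ico (0:ℝ) 1) with hS
  have h1 : ∀ x ∈ Ico (0:ℝ) 1, ‖W x‖ ≤ S := fun x hx => le_csSup hbdd ⟨x, hx, rfl⟩
  have h2 := h S h1
  have h3 : S ≤ a + θ * S := by
    apply csSup_le hne
    rintro y ⟨x, hx, rfl⟩
    exact h2 x hx
  have h4 : S ≤ a / (1 - θ) := by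
    rw [le_div_iff₀ (by linarith)]
    linarith
  exact fun x hx => (h1 x hx).trans h4

theorem w_ge_one {s : ℝ} (hs : s ∈ Ioo (0:ℝ) 1) : 1 ≤ (1 - s) ^ (-(3 / 4) : ℝ) :=
  Real.one_le_rpow_of_pos_of_le_one_of_nonpos (by linarith [hs.2]) (by linarith [hs.1])
    (by norm_num)

theorem w_ge_sqrt {s : ℝ} (hs : s ∈ Ioo (0:ℝ) 1) :
    (Real.sqrt (1 - s))⁻¹ ≤ (1 - s) ^ (-(3 / 4) : ℝ) := by
  have h0 : 0 < 1 - s := by linarith [hs.2]
  rw [Real.sqrt_eq_rpow, ← Real.rpow_neg h0.le]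
  exact Real.rpow_le_rpow_of_exponent_ge h0 (by linarith [hs.1]) (by norm_num)

theorem int_est {H : ℝ → ℂ} (hNB : NB H (1/20)) {f : ℝ → ℂ} {K x : ℝ} (hK : 0 ≤ K)
    (hx : x ∈ Ico (0:ℝ) 1)
    (hf : ∀ s ∈ Ioo x 1, ‖f s‖ ≤ K * (‖H s‖ * (1 - s) ^ (-(3 / 4) : ℝ))) :
    ‖∫ s in x..1, f s‖ ≤ K * (1/20) := by
  obtain ⟨hm, hi, hb⟩ := hNB
  rw [intervalIntegral.integral_of_le hx.2.le, integral_Ioc_eq_integral_Ioo]
  have hsub : Ioo x 1 ⊆ Ioo (0:ℝ) 1 := Ioo_subset_Ioo_left hx.1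
  have hi2 : IntegrableOn (fun s : ℝ => ‖H s‖ * (1 - s) ^ (-(3 / 4) : ℝ)) (Ioo x 1) :=
    hi.mono_set hsub
  have h1 : ‖∫ s in Ioo x 1, f s‖ ≤
      ∫ s in Ioo x 1, K * (‖H s‖ * (1 - s) ^ (-(3 / 4) : ℝ)) := by
    apply norm_integral_le_of_norm_le (hi2.const_mul K)
    rw [ae_restrict_iff' measurableSet_Ioo]
    exact Eventually.of_forall hf
  refine h1.trans ?_
  rw [integral_const_mul]
  apply mul_le_mul_of_nonneg_left _ hK
  refine le_trans ?_ hb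
  apply setIntegral_mono_set hi
  · rw [EventuallyLE, ae_restrict_iff' measurableSet_Ioo]
    refine Eventually.of_forall fun s hs => ?_
    have : 0 ≤ (1 - s) ^ (-(3 / 4) : ℝ) := Real.rpow_nonneg (by linarith [hs.2]) _
    positivity
  · exact hsub.eventuallyLE

theorem H_int {H : ℝ → ℂ} (hNB : NB H (1/20)) : IntegrableOn H (Ioo (0:ℝ) 1) := by
  obtain ⟨hm, hi, hb⟩ := hNB
  refine Integrable.mono' hi hm ?_
  rw [ae_restrict_iff' measurableSet_Ioo]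
  refine Eventually.of_forall fun s hs => ?_
  have := w_ge_one hs
  nlinarith [norm_nonneg (H s)]

theorem ii_bdd {G : ℝ → ℂ} (hG : ContinuousOn G (Ico (0:ℝ) 1)) {B : ℝ}
    (hB : ∀ x ∈ Ico (0:ℝ) 1, ‖G x‖ ≤ B) {x : ℝ} (hx : x ∈ Ico (0:ℝ) 1) :
    IntervalIntegrable G volume x 1 := by
  rw [intervalIntegrable_iff_integrableOn_Ioo_of_le hx.2.le]
  have hsub : Ioo x 1 ⊆ Ico (0:ℝ) 1 := fun s hs => ⟨hx.1.trans hs.1.le, hs.2⟩
  refine Integrable.mono' (g := fun _ => B) (integrableOn_const (by simp))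
    ((hG.mono hsub).aestronglyMeasurable measurableSet_Ioo) ?_
  rw [ae_restrict_iff' measurableSet_Ioo]
  exact Eventually.of_forall fun s hs => hB s (hsub hs)

theorem ii_HG {H G : ℝ → ℂ} (hNB : NB H (1/20)) (hG : ContinuousOn G (Ico (0:ℝ) 1)) {B : ℝ}
    (hB : ∀ x ∈ Ico (0:ℝ) 1, ‖G x‖ ≤ B) {x : ℝ} (hx : x ∈ Ico (0:ℝ) 1) :
    IntervalIntegrable (fun s => H s * G s) volume x 1 := by
  rw [intervalIntegrable_iff_integrableOn_Ioo_of_le hx.2.le]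
  have hsub : Ioo x 1 ⊆ Ico (0:ℝ) 1 := fun s hs => ⟨hx.1.trans hs.1.le, hs.2⟩
  have h1 : IntegrableOn H (Ioo x 1) := (H_int hNB).mono_set (Ioo_subset_Ioo_left hx.1)
  refine Integrable.mul_bdd (c := B) h1
    ((hG.mono hsub).aestronglyMeasurable measurableSet_Ioo) ?_
  rw [ae_restrict_iff' measurableSet_Ioo]
  exact Eventually.of_forall fun s hs => hB s (hsub hs)

theorem ii_congr {f g : ℝ → ℂ} {x : ℝ} (hx : x ∈ Ico (0:ℝ) 1) (h : ∀ s ∈ Ioo x 1, f s = g s) :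
    ∫ s in x..1, f s = ∫ s in x..1, g s := by
  rw [intervalIntegral.integral_of_le hx.2.le, intervalIntegral.integral_of_le hx.2.le,
    integral_Ioc_eq_integral_Ioo, integral_Ioc_eq_integral_Ioo]
  exact setIntegral_congr_fun measurableSet_Ioo h

/-- data for one value of the parameter -/
structure Dat (H P : ℝ → ℂ) (b c M : ℝ) : Prop where
  cP : ContinuousOn P (Ico (0:ℝ) 1)
  uP : ∀ x ∈ Ico (0:ℝ) 1, ‖P x‖ ≤ M
  lP : ∀ x ∈ Ico (0:ℝ) 1, c ≤ (P x).re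
  rP : ∀ x ∈ Ico (0:ℝ) 1, 3 / 4 * Real.sqrt (1 - x) ≤ (P x).re
  eP : ∀ x ∈ Ico (0:ℝ) 1, P x ^ 2 = 1 - (x:ℂ) ^ 2 + b + 2 * ∫ s in x..1, H s * P s

theorem step_Y {H P P' : ℝ → ℂ} {b b' c M : ℝ} (hNB : NB H (1/20)) (hc : 0 < c)
    (h1 : Dat H P b c M) (h2 : Dat H P' b' c M) :
    ∀ x ∈ Ico (0:ℝ) 1, ‖P x ^ 2 - P' x ^ 2‖ ≤ 2 * |b - b'| := by
  have hM : 0 ≤ M := le_trans (norm_nonneg _) (h1.uP 0 ⟨le_rfl, one_pos⟩)
  have hsum : ∀ x ∈ Ico (0:ℝ) 1, 3 / 2 * Real.sqrt (1 - x) ≤ ‖P x + P' x‖ := by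
    intro x hx
    refine le_trans ?_ (Complex.re_le_norm _)
    rw [Complex.add_re]
    linarith [h1.rP x hx, h2.rP x hx]
  have hsp : ∀ x ∈ Ico (0:ℝ) 1, 0 < Real.sqrt (1 - x) := fun x hx =>
    Real.sqrt_pos.2 (by linarith [hx.2])
  have hne : ∀ x ∈ Ico (0:ℝ) 1, P x + P' x ≠ 0 := by
    intro x hx h0
    have := hsum x hx
    rw [h0, norm_zero] at this
    linarith [hsp x hx]
  have key := sup_lemma (W := fun x => P x ^ 2 - P' x ^ 2) (a := |b - b'|) (θ := 1/15)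
    (B := M ^ 2 + M ^ 2) (by norm_num) ?_ ?_
  · intro x hx
    refine (key x hx).trans ?_
    have := abs_nonneg (b - b')
    rw [div_le_iff₀ (by norm_num)]
    linarith
  · intro x hx
    refine (norm_sub_le _ _).trans ?_
    rw [norm_pow, norm_pow]
    exact add_le_add (pow_le_pow_left₀ (norm_nonneg _) (h1.uP x hx) 2)
      (pow_le_pow_left₀ (norm_nonneg _) (h2.uP x hx) 2)
  · intro S hS x hx
    have hS0 : 0 ≤ S := le_trans (norm_nonneg _) (hS 0 ⟨le_rfl, one_pos⟩)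
    have e1 : P x ^ 2 - P' x ^ 2 = ((b - b' : ℝ) : ℂ) +
        ∫ s in x..1, 2 * (H s * P s - H s * P' s) := by
      rw [h1.eP x hx, h2.eP x hx, intervalIntegral.integral_const_mul,
        intervalIntegral.integral_sub (ii_HG hNB h1.cP h1.uP hx) (ii_HG hNB h2.cP h2.uP hx)]
      push_cast
      ring
    replace hS : ∀ s ∈ Ico (0:ℝ) 1, ‖P s ^ 2 - P' s ^ 2‖ ≤ S := hS
    change ‖P x ^ 2 - P' x ^ 2‖ ≤ |b - b'| + 1/15 * S
    rw [e1]
    refine (norm_add_le _ _).trans ?_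
    rw [Complex.norm_real, Real.norm_eq_abs]
    have h3 := int_est hNB (f := fun s => 2 * (H s * P s - H s * P' s)) (K := 4/3 * S)
      (by positivity) hx ?_
    · linarith
    · intro s hs
      have hs' : s ∈ Ico (0:ℝ) 1 := ⟨hx.1.trans hs.1.le, hs.2⟩
      have hs'' : s ∈ Ioo (0:ℝ) 1 := ⟨hx.1.trans_lt hs.1, hs.2⟩
      have e2 : 2 * (H s * P s - H s * P' s) = H s * (2 * (P s ^ 2 - P' s ^ 2) / (P s + P' s)) := by
        have := hne s hs'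
        field_simp
        ring
      rw [e2, norm_mul]
      have e3 : ‖2 * (P s ^ 2 - P' s ^ 2) / (P s + P' s)‖ ≤
          4/3 * S * (1 - s) ^ (-(3 / 4) : ℝ) := by
        rw [norm_div, norm_mul]
        have h4 := hsum s hs'
        have h5 := hsp s hs'
        calc ‖(2:ℂ)‖ * ‖P s ^ 2 - P' s ^ 2‖ / ‖P s + P' s‖
            ≤ 2 * S / (3 / 2 * Real.sqrt (1 - s)) := by
              rw [Complex.norm_ofNat]
              exact div_le_div₀ (by positivity) (by linarith [hS s hs']) (by positivity) h4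
          _ = 4/3 * S * (Real.sqrt (1 - s))⁻¹ := by field_simp; ring
          _ ≤ _ := mul_le_mul_of_nonneg_left (w_ge_sqrt hs'') (by positivity)
      calc ‖H s‖ * ‖2 * (P s ^ 2 - P' s ^ 2) / (P s + P' s)‖ ≤
            ‖H s‖ * (4/3 * S * (1 - s) ^ (-(3 / 4) : ℝ)) :=
            mul_le_mul_of_nonneg_left e3 (norm_nonneg _)
        _ = _ := by ring

theorem step_W {H P P' E : ℝ → ℂ} {b b' c M : ℝ} (hNB : NB H (1/20)) (hc : 0 < c)
    (h1 : Dat H P b c M) (h2 : Dat H P' b' c M) (cE : ContinuousOn E (Ico (0:ℝ) 1))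
    (bE : ∀ x ∈ Ico (0:ℝ) 1, ‖E x‖ ≤ 5 / 4)
    (eE : ∀ x ∈ Ico (0:ℝ) 1, E x = 1 + ∫ s in x..1, H s * (E s / P s)) :
    ∀ x ∈ Ico (0:ℝ) 1, ‖(P x ^ 2 - P' x ^ 2) - ((b - b' : ℝ) : ℂ) * E x‖ ≤
      |b - b'| ^ 2 / c ^ 3 := by
  have hM : 0 ≤ M := le_trans (norm_nonneg _) (h1.uP 0 ⟨le_rfl, one_pos⟩)
  have hY := step_Y hNB hc h1 h2
  have hsum : ∀ x ∈ Ico (0:ℝ) 1, c ≤ ‖P x + P' x‖ := by
    intro x hx
    refine le_trans ?_ (Complex.re_le_norm _)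
    rw [Complex.add_re]
    linarith [h1.lP x hx, h2.lP x hx]
  have hPn : ∀ x ∈ Ico (0:ℝ) 1, c ≤ ‖P x‖ := fun x hx =>
    (h1.lP x hx).trans (Complex.re_le_norm _)
  have hsp : ∀ x ∈ Ico (0:ℝ) 1, 0 < Real.sqrt (1 - x) := fun x hx =>
    Real.sqrt_pos.2 (by linarith [hx.2])
  have hne : ∀ x ∈ Ico (0:ℝ) 1, P x + P' x ≠ 0 := by
    intro x hx h0
    have := hsum x hx
    rw [h0, norm_zero] at this
    linarith
  have hneP : ∀ x ∈ Ico (0:ℝ) 1, P x ≠ 0 := by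
    intro x hx h0
    have := hPn x hx
    rw [h0, norm_zero] at this
    linarith
  have cEP : ContinuousOn (fun s => E s / P s) (Ico (0:ℝ) 1) := cE.div h1.cP hneP
  have bEP : ∀ x ∈ Ico (0:ℝ) 1, ‖E x / P x‖ ≤ 5 / 4 / c := by
    intro x hx
    rw [norm_div]
    exact div_le_div₀ (by norm_num) (bE x hx) hc (hPn x hx)
  have key := sup_lemma (W := fun x => (P x ^ 2 - P' x ^ 2) - ((b - b' : ℝ) : ℂ) * E x)
    (a := 4 * |b - b'| ^ 2 / c ^ 3 * (1/20)) (θ := 1/15)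
    (B := 2 * |b - b'| + |b - b'| * (5/4)) (by norm_num) ?_ ?_
  · intro x hx
    refine (key x hx).trans ?_
    have h3 : 0 ≤ |b - b'| ^ 2 / c ^ 3 := by positivity
    have e : 4 * |b - b'| ^ 2 / c ^ 3 * (1/20) / (1 - 1/15) = 3/14 * (|b - b'| ^ 2 / c ^ 3) := by
      ring
    rw [e]
    linarith
  · intro x hx
    refine (norm_sub_le _ _).trans ?_
    rw [norm_mul, Complex.norm_real, Real.norm_eq_abs]
    exact add_le_add (hY x hx) (mul_le_mul_of_nonneg_left (bE x hx) (abs_nonneg _))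
  · intro S hS x hx
    have hS0 : 0 ≤ S := le_trans (norm_nonneg _) (hS 0 ⟨le_rfl, one_pos⟩)
    have e1 : (P x ^ 2 - P' x ^ 2) - ((b - b' : ℝ) : ℂ) * E x =
        ∫ s in x..1, (2 * (H s * P s - H s * P' s) - ((b - b' : ℝ) : ℂ) * (H s * (E s / P s))) := by
      have i1 := ii_HG hNB h1.cP h1.uP hx
      have i2 := ii_HG hNB h2.cP h2.uP hx
      have i3 := ii_HG hNB cEP bEP hx
      rw [intervalIntegral.integral_sub ((i1.sub i2).const_mul 2) (i3.const_mul _),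
        intervalIntegral.integral_const_mul, intervalIntegral.integral_const_mul,
        intervalIntegral.integral_sub i1 i2, h1.eP x hx, h2.eP x hx, eE x hx]
      push_cast
      ring
    replace hS : ∀ s ∈ Ico (0:ℝ) 1,
      ‖(P s ^ 2 - P' s ^ 2) - ((b - b' : ℝ) : ℂ) * E s‖ ≤ S := hS
    change ‖(P x ^ 2 - P' x ^ 2) - ((b - b' : ℝ) : ℂ) * E x‖ ≤
      4 * |b - b'| ^ 2 / c ^ 3 * (1/20) + 1/15 * S
    rw [e1]
    have h3 := int_est hNB (f := fun s => 2 * (H s * P s - H s * P' s) -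
      ((b - b' : ℝ) : ℂ) * (H s * (E s / P s))) (K := 4 * |b - b'| ^ 2 / c ^ 3 + 4/3 * S)
      (by positivity) hx ?_
    · linarith
    · intro s hs
      have hs' : s ∈ Ico (0:ℝ) 1 := ⟨hx.1.trans hs.1.le, hs.2⟩
      have hs'' : s ∈ Ioo (0:ℝ) 1 := ⟨hx.1.trans_lt hs.1, hs.2⟩
      have e2 : 2 * (H s * P s - H s * P' s) - ((b - b' : ℝ) : ℂ) * (H s * (E s / P s)) =
          H s * ((P s ^ 2 - P' s ^ 2) ^ 2 / (P s * (P s + P' s) ^ 2) +
            ((P s ^ 2 - P' s ^ 2) - ((b - b' : ℝ) : ℂ) * E s) / P s) := by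
        have n1 := hne s hs'
        have n2 := hneP s hs'
        field_simp
        ring
      rw [e2, norm_mul]
      have e3 : ‖(P s ^ 2 - P' s ^ 2) ^ 2 / (P s * (P s + P' s) ^ 2)‖ ≤
          4 * |b - b'| ^ 2 / c ^ 3 := by
        rw [norm_div, norm_mul, norm_pow, norm_pow]
        apply div_le_div₀ (by positivity)
        · calc ‖P s ^ 2 - P' s ^ 2‖ ^ 2 ≤ (2 * |b - b'|) ^ 2 :=
                pow_le_pow_left₀ (norm_nonneg _) (hY s hs') 2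
            _ = 4 * |b - b'| ^ 2 := by ring
        · positivity
        · calc c ^ 3 = c * c ^ 2 := by ring
            _ ≤ ‖P s‖ * ‖P s + P' s‖ ^ 2 :=
              mul_le_mul (hPn s hs') (pow_le_pow_left₀ hc.le (hsum s hs') 2) (by positivity)
                (norm_nonneg _)
      have e4 : ‖((P s ^ 2 - P' s ^ 2) - ((b - b' : ℝ) : ℂ) * E s) / P s‖ ≤
          4/3 * S * (1 - s) ^ (-(3 / 4) : ℝ) := by
        rw [norm_div]
        have h5 := hsp s hs'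
        calc ‖(P s ^ 2 - P' s ^ 2) - ((b - b' : ℝ) : ℂ) * E s‖ / ‖P s‖
            ≤ S / (3 / 4 * Real.sqrt (1 - s)) :=
              div_le_div₀ (by positivity) (hS s hs') (by positivity)
                ((h1.rP s hs').trans (Complex.re_le_norm _))
          _ = 4/3 * S * (Real.sqrt (1 - s))⁻¹ := by field_simp
          _ ≤ _ := mul_le_mul_of_nonneg_left (w_ge_sqrt hs'') (by positivity)
      have e5 : 4 * |b - b'| ^ 2 / c ^ 3 ≤
          4 * |b - b'| ^ 2 / c ^ 3 * (1 - s) ^ (-(3 / 4) : ℝ) :=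
        le_mul_of_one_le_right (by positivity) (w_ge_one hs'')
      calc ‖H s‖ * ‖(P s ^ 2 - P' s ^ 2) ^ 2 / (P s * (P s + P' s) ^ 2) +
            ((P s ^ 2 - P' s ^ 2) - ((b - b' : ℝ) : ℂ) * E s) / P s‖ ≤
            ‖H s‖ * (4 * |b - b'| ^ 2 / c ^ 3 * (1 - s) ^ (-(3 / 4) : ℝ) +
              4/3 * S * (1 - s) ^ (-(3 / 4) : ℝ)) := by
            apply mul_le_mul_of_nonneg_left _ (norm_nonneg _)
            exact (norm_add_le _ _).trans (add_le_add (e3.trans e5) e4)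
        _ = _ := by ring

/-- the difference quotient estimate -/
theorem step_T {H P P' E : ℝ → ℂ} {b b' c M : ℝ} (hNB : NB H (1/20)) (hc : 0 < c)
    (h1 : Dat H P b c M) (h2 : Dat H P' b' c M) (cE : ContinuousOn E (Ico (0:ℝ) 1))
    (bE : ∀ x ∈ Ico (0:ℝ) 1, ‖E x‖ ≤ 5 / 4)
    (eE : ∀ x ∈ Ico (0:ℝ) 1, E x = 1 + ∫ s in x..1, H s * (E s / P s)) :
    ‖(∫ x in (0:ℝ)..1, (P' x)⁻¹) - (∫ x in (0:ℝ)..1, (P x)⁻¹) -
      ((b' - b : ℝ) : ℂ) * (-(1/2) * ∫ x in (0:ℝ)..1, E x / P x ^ 3)‖ ≤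
      (1/2 + 6 * M) / c ^ 6 * |b' - b| ^ 2 := by
  have hM : 0 ≤ M := le_trans (norm_nonneg _) (h1.uP 0 ⟨le_rfl, one_pos⟩)
  have hY := step_Y hNB hc h1 h2
  have hW := step_W hNB hc h1 h2 cE bE eE
  have hsum : ∀ x ∈ Ico (0:ℝ) 1, c ≤ ‖P x + P' x‖ := by
    intro x hx
    refine le_trans ?_ (Complex.re_le_norm _)
    rw [Complex.add_re]
    linarith [h1.lP x hx, h2.lP x hx]
  have hPn : ∀ x ∈ Ico (0:ℝ) 1, c ≤ ‖P x‖ := fun x hx =>
    (h1.lP x hx).trans (Complex.re_le_norm _)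
  have hPn' : ∀ x ∈ Ico (0:ℝ) 1, c ≤ ‖P' x‖ := fun x hx =>
    (h2.lP x hx).trans (Complex.re_le_norm _)
  have hne : ∀ x ∈ Ico (0:ℝ) 1, P x + P' x ≠ 0 := by
    intro x hx h0
    have := hsum x hx
    rw [h0, norm_zero] at this
    linarith
  have hneP : ∀ x ∈ Ico (0:ℝ) 1, P x ≠ 0 := by
    intro x hx h0
    have := hPn x hx
    rw [h0, norm_zero] at this
    linarith
  have hneP' : ∀ x ∈ Ico (0:ℝ) 1, P' x ≠ 0 := by
    intro x hx h0
    have := hPn' x hx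
    rw [h0, norm_zero] at this
    linarith
  have h0 : (0:ℝ) ∈ Ico (0:ℝ) 1 := ⟨le_rfl, one_pos⟩
  have i1 : IntervalIntegrable (fun x => (P x)⁻¹) volume 0 1 := by
    refine ii_bdd (h1.cP.inv₀ hneP) (B := c⁻¹) ?_ h0
    intro x hx
    change ‖(P x)⁻¹‖ ≤ c⁻¹
    rw [norm_inv]
    exact inv_anti₀ hc (hPn x hx)
  have i2 : IntervalIntegrable (fun x => (P' x)⁻¹) volume 0 1 := by
    refine ii_bdd (h2.cP.inv₀ hneP') (B := c⁻¹) ?_ h0
    intro x hx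
    change ‖(P' x)⁻¹‖ ≤ c⁻¹
    rw [norm_inv]
    exact inv_anti₀ hc (hPn' x hx)
  have i3 : IntervalIntegrable (fun x => E x / P x ^ 3) volume 0 1 := by
    refine ii_bdd (cE.div (h1.cP.pow 3) fun x hx => pow_ne_zero 3 (hneP x hx))
      (B := 5 / 4 / c ^ 3) ?_ h0
    intro x hx
    change ‖E x / P x ^ 3‖ ≤ 5 / 4 / c ^ 3
    rw [norm_div, norm_pow]
    exact div_le_div₀ (by norm_num) (bE x hx) (by positivity)
      (pow_le_pow_left₀ hc.le (hPn x hx) 3)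
  have e1 : (∫ x in (0:ℝ)..1, (P' x)⁻¹) - (∫ x in (0:ℝ)..1, (P x)⁻¹) -
      ((b' - b : ℝ) : ℂ) * (-(1/2) * ∫ x in (0:ℝ)..1, E x / P x ^ 3) =
      ∫ x in (0:ℝ)..1, ((P' x)⁻¹ - (P x)⁻¹ -
        (((b' - b : ℝ) : ℂ) * (-(1/2))) * (E x / P x ^ 3)) := by
    rw [intervalIntegral.integral_sub (i2.sub i1) (i3.const_mul _),
      intervalIntegral.integral_sub i2 i1, intervalIntegral.integral_const_mul]
    ring
  rw [e1]
  have h3 : ∀ x ∈ Ioo (0:ℝ) 1, ‖(P' x)⁻¹ - (P x)⁻¹ -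
        (((b' - b : ℝ) : ℂ) * (-(1/2))) * (E x / P x ^ 3)‖ ≤
        (1/2 + 6 * M) / c ^ 6 * |b' - b| ^ 2 := by
    intro x hx
    have hx' : x ∈ Ico (0:ℝ) 1 := ⟨hx.1.le, hx.2⟩
    have n1 := hne x hx'
    have n2 := hneP x hx'
    have n3 := hneP' x hx'
    have e2 : (P' x)⁻¹ - (P x)⁻¹ - (((b' - b : ℝ) : ℂ) * (-(1/2))) * (E x / P x ^ 3) =
        ((P x ^ 2 - P' x ^ 2) - ((b - b' : ℝ) : ℂ) * E x) / (2 * P x ^ 3) +
        (P x ^ 2 - P' x ^ 2) ^ 2 * (2 * P x + P' x) /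
          (2 * P x ^ 3 * (P x + P' x) ^ 2 * P' x) := by
      push_cast
      field_simp
      ring
    rw [e2]
    have habs : |b' - b| = |b - b'| := abs_sub_comm _ _
    rw [habs]
    have e3 : ‖((P x ^ 2 - P' x ^ 2) - ((b - b' : ℝ) : ℂ) * E x) / (2 * P x ^ 3)‖ ≤
        |b - b'| ^ 2 / c ^ 3 / (2 * c ^ 3) := by
      rw [norm_div, norm_mul, norm_pow, Complex.norm_ofNat]
      apply div_le_div₀ (by positivity) (hW x hx') (by positivity)
      exact mul_le_mul_of_nonneg_left (pow_le_pow_left₀ hc.le (hPn x hx') 3) (by norm_num)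
    have e4 : ‖(P x ^ 2 - P' x ^ 2) ^ 2 * (2 * P x + P' x) /
          (2 * P x ^ 3 * (P x + P' x) ^ 2 * P' x)‖ ≤
        (2 * |b - b'|) ^ 2 * (2 * M + M) / (2 * c ^ 3 * c ^ 2 * c) := by
      rw [norm_div, norm_mul, norm_mul, norm_mul, norm_mul, norm_pow, norm_pow, norm_pow,
        Complex.norm_ofNat]
      apply div_le_div₀ (by positivity)
      · apply mul_le_mul (pow_le_pow_left₀ (norm_nonneg _) (hY x hx') 2) _ (norm_nonneg _)
          (by positivity)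
        refine (norm_add_le _ _).trans (add_le_add ?_ (h2.uP x hx'))
        rw [norm_mul, Complex.norm_ofNat]
        exact mul_le_mul_of_nonneg_left (h1.uP x hx') (by norm_num)
      · positivity
      · apply mul_le_mul _ (hPn' x hx') hc.le (by positivity)
        apply mul_le_mul _ (pow_le_pow_left₀ hc.le (hsum x hx') 2) (by positivity) (by positivity)
        exact mul_le_mul_of_nonneg_left (pow_le_pow_left₀ hc.le (hPn x hx') 3) (by norm_num)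
    refine (norm_add_le _ _).trans ((add_le_add e3 e4).trans (le_of_eq ?_))
    field_simp
    ring
  have h4 := intervalIntegral.norm_integral_le_of_norm_le_const_ae (a := 0) (b := 1)
    (C := (1/2 + 6 * M) / c ^ 6 * |b' - b| ^ 2)
    (f := fun x => (P' x)⁻¹ - (P x)⁻¹ -
        (((b' - b : ℝ) : ℂ) * (-(1/2))) * (E x / P x ^ 3)) ?_
  · simpa using h4
  · have hne1 : ∀ᵐ x : ℝ ∂volume, x ≠ 1 := by
      rw [ae_iff]
      simp
    filter_upwards [hne1] with x hx1 hx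
    rw [uIoc_of_le zero_le_one] at hx
    exact h3 x ⟨hx.1, lt_of_le_of_ne hx.2 hx1⟩

end Pool.Agent.W174.UN
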